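import Pool.Agent.helper19.QP.SpecM
import Pool.Agent.helper7.IG.Basic

/-!
# Row qm:ORT (MP_ebc808_nt)

Automorphisms which fix the vertices near `(B, 1)` fix the symmetric functions of the `l`-neighbours.
-/

set_option autoImplicit false

open Polynomial Pool.Agent.helper7.IG

noncomputable section

namespace Pool.Agent.QP

theorem ORT_cl_aeval (Φ : Frame) {x : LL} (hx : x ∈ MM) (Q : Polynomial kk) :
    Φ.cl (aeval x Q) = aeval (Φ.cl x) Q := by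
  rw [Polynomial.aeval_eq_sum_range, Polynomial.aeval_eq_sum_range, Φ.cl_sum]
  · refine Finset.sum_congr rfl fun i _ => ?_
    rw [Algebra.smul_def, Algebra.smul_def, Φ.cl_smul _ (pow_mem hx i), Φ.cl_pow hx]
  · intro i _
    rw [Algebra.smul_def]
    exact mul_mem (MM.algebraMap_mem _) (pow_mem hx i)

theorem ORT_aeval_mem {x : LL} (hx : x ∈ MM) (Q : Polynomial kk) : aeval x Q ∈ MM := by
  rw [Polynomial.aeval_eq_sum_range]
  refine sum_mem fun i _ => ?_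
  rw [Algebra.smul_def]
  exact mul_mem (MM.algebraMap_mem _) (pow_mem hx i)

theorem ORT (hHP2 : HP2_stmt) (hANF : ANF_stmt) (hPMM : PMM_stmt) (hDI : DI_stmt) (hNB : NB_stmt) (hME : ME_stmt) :
    ORT_stmt := by
  classical
  intro F N l hF hN hNs hl hl2 hl3 hNl
  obtain ⟨B0, hB0, hB⟩ := hHP2 F N l hF hN hNs hl hl2 hl3 hNl
  have hlo : Odd l := hl.odd_of_ne_two hl2
  refine ⟨l * B0, hlo.mul hB0, ?_⟩
  intro Q Φ γ B hBo hBd hfix
  have hlB : l ∣ B := (dvd_mul_right l B0).trans hBd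
  obtain ⟨hfix1, hnb⟩ := hB Φ γ B hBo ((dvd_mul_left B0 l).trans hBd) hfix
  have hB0' : B ≠ 0 := hBo.pos.ne'
  obtain ⟨hAN, -⟩ := hANF l B hl hB0'
  have hγB : γ (Φ.D (B, 1)) = Φ.D (B, 1) := by
    have := hfix 1 1 (one_dvd _) (one_pow _)
    rwa [mul_one] at this
  have hodd : ∀ u ∈ AN l B, Odd u.1 := by
    intro u hu
    rcases (hAN u).1 hu with h | h
    · rw [h.1]
      exact hlo.mul hBo
    · have h1 : B = l * u.1 := h.1
      rw [h1] at hBo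
      exact (Nat.odd_mul.1 hBo).2
  have hex : ∀ u ∈ AN l B, ∃ u', Nb l (B, 1) u' ∧ γ (Φ.D u) = Φ.D u' := fun u hu =>
    hNB Φ γ (B, 1) (B, 1) l hl hl2 hBo hBo hlB hlB hγB u ((hAN u).1 hu)
  choose! σ hσ1 hσ2 using hex
  have hσm : ∀ u ∈ AN l B, σ u ∈ AN l B := fun u hu => (hAN _).2 (hσ1 u hu)
  have hσinj : Set.InjOn σ (AN l B : Set Vx) := by
    intro u hu u' hu' h
    refine hDI Φ u u' (hodd u hu) (hodd u' hu') (γ.injective ?_)
    rw [hσ2 u hu, hσ2 u' hu', h]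
  have himg : (AN l B).image σ = AN l B :=
    Finset.eq_of_subset_of_card_le (fun v hv => by
      obtain ⟨u, hu, rfl⟩ := Finset.mem_image.1 hv
      exact hσm u hu) (Finset.card_image_of_injOn hσinj).ge
  have hsum : ∀ f : Vx → Φ.A, ∑ u ∈ AN l B, f (σ u) = ∑ u ∈ AN l B, f u := fun f => by
    conv_rhs => rw [← himg]
    rw [Finset.sum_image hσinj]
  have hprod : ∀ f : Vx → Φ.A, ∏ u ∈ AN l B, f (σ u) = ∏ u ∈ AN l B, f u := fun f => by
    conv_rhs => rw [← himg]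
    rw [Finset.prod_image hσinj]
  have hPN : PN N F ∈ MM := hPMM N F hN hNs hF.1
  have hDD : DDk ∈ MM := DDk_mem
  have hm1 : ∀ u ∈ AN l B, sig u.1 u.2 (PN N F) ∈ MM := fun u hu => hME _ _ _ (hodd u hu) hPN
  have hm2 : ∀ u ∈ AN l B, sig u.1 u.2 DDk ∈ MM := fun u hu => hME _ _ _ (hodd u hu) hDD
  have hm3 : sig B 1 (PN N F) ∈ MM := hME _ _ _ hBo hPN
  have hm4 : sig B 1 DDk ∈ MM := hME _ _ _ hBo hDD
  refine ⟨?_, ?_⟩
  · unfold TL
    rw [Φ.cl_add _ hm3 _ (sum_mem hm1), Φ.cl_sum _ _ hm1, map_add, hfix1, map_sum]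
    congr 1
    rw [← hsum fun u => Φ.cl (sig u.1 u.2 (PN N F))]
    exact Finset.sum_congr rfl fun u hu => hnb u (σ u) ((hAN u).1 hu) (hσ1 u hu) (hσ2 u hu)
  · unfold PI0
    rw [Φ.cl_mul _ (ORT_aeval_mem hm4 Q) _ (prod_mem fun u hu => ORT_aeval_mem (hm2 u hu) Q),
      Φ.cl_prod _ _ (fun u hu => ORT_aeval_mem (hm2 u hu) Q), map_mul, map_prod]
    have e1 : γ (Φ.cl (aeval (sig B 1 DDk) Q)) = Φ.cl (aeval (sig B 1 DDk) Q) := by
      rw [ORT_cl_aeval Φ hm4]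
      have e3 : γ (aeval (Φ.cl (sig B 1 DDk)) Q) = aeval (γ (Φ.cl (sig B 1 DDk))) Q :=
        (Polynomial.aeval_algHom_apply (γ : Φ.A →ₐ[kk] Φ.A) _ _).symm
      rw [e3]
      exact congrArg (fun x => aeval x Q) hγB
    rw [e1]
    congr 1
    rw [← hprod fun u => Φ.cl (aeval (sig u.1 u.2 DDk) Q)]
    refine Finset.prod_congr rfl fun u hu => ?_
    rw [ORT_cl_aeval Φ (hm2 u hu), ORT_cl_aeval Φ (hm2 (σ u) (hσm u hu))]
    have e2 : γ (aeval (Φ.cl (sig u.1 u.2 DDk)) Q) = aeval (γ (Φ.cl (sig u.1 u.2 DDk))) Q :=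
      (Polynomial.aeval_algHom_apply (γ : Φ.A →ₐ[kk] Φ.A) _ _).symm
    rw [e2]
    exact congrArg (fun x => aeval x Q) (hσ2 u hu)

end Pool.Agent.QP
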