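import Pool.Agent.helper30.QP.SpecC
import Pool.Agent.helper34.IG.TRL

set_option autoImplicit false

open Polynomial Pool.Agent.helper7.IG

noncomputable section

namespace Pool.Agent.QP

/-- composition of paths -/
theorem HEX_trans {N N' : ℕ} {l₁ l₂ : List ℕ} {u : Vx} (h1 : Ty N l₁ (N', 1)) (h2 : Ty N' l₂ u) :
    Ty N (l₂ ++ l₁) u := by
  induction h2 with
  | nil => exact h1
  | cons hp hp2 _ hnb ih => exact Ty.cons hp hp2 ih hnb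

/-- conjugates of translations of order dividing `L` fix the vertices prime to `L` -/
theorem HEX_fix (hME : ME_stmt) (hTY : TY_stmt) (hTYM : TYM_stmt) (Φ : Frame) (B L l : ℕ) (hB : Odd B)
    (hLB : L ∣ B) (hcop : ∀ n : ℕ, n.Coprime l → n.Coprime L) {g T : Φ.A ≃ₐ[kk] Φ.A} {ω : kkˣ}
    (hg : g (Φ.D (B, 1)) = Φ.D (B, 1)) (hT : Φ.IsT ω T) (hω : ω ^ L = 1) (M K : ℕ) (η : kkˣ)
    (hM : M.Coprime l) (hK : K.Coprime l) (hMK : M * K ^ 2 ∣ B) (hη : η ^ K = 1) :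
    (g * T * g⁻¹) (Φ.D (B * M, η)) = Φ.D (B * M, η) := by
  change g (T (g⁻¹ (Φ.D (B * M, η)))) = _
  have hMKo : Odd (M * K ^ 2) := Odd.of_dvd_nat hB hMK
  have hMo : Odd M := (Nat.odd_mul.mp hMKo).1
  have hKo : Odd K := Odd.of_dvd_nat hMKo ⟨M * K, by ring⟩
  have hgi : g⁻¹ (Φ.D (B, 1)) = Φ.D (B, 1) := trl_inv_fix hg
  have hMK1 : Odd (M * K) := hMo.mul hKo
  obtain ⟨l₁, hl₁, ht₁⟩ := hTY.2.2 B (M * K) hB hMK1
  have hBMK : Odd (B * (M * K)) := hB.mul hMK1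
  obtain ⟨l₂, hl₂, ht₂⟩ := hTY.2.1 (B * (M * K)) K hBMK ⟨B * M, by ring⟩
  have hK0 : 0 < K := hKo.pos
  have e1 : B * (M * K) / K = B * M := by
    rw [← mul_assoc]
    exact Nat.mul_div_cancel _ hK0
  have ht3 := HEX_trans ht₁ (ht₂ η hη)
  rw [e1] at ht3
  have hprod : (l₂ ++ l₁).prod = M * K ^ 2 := by
    rw [List.prod_append, hl₁, hl₂]
    ring
  obtain ⟨v', hv', hgv⟩ := hTYM Φ B g⁻¹ (l₂ ++ l₁) (B * M, η) hB (by rw [hprod]; exact hMK) hgi ht3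
  obtain ⟨ho, hd, -, -⟩ := hTY.1 B (l₂ ++ l₁) v' hB hv'
  rw [hprod] at hd
  have hcopL : Nat.Coprime L (M * K ^ 2) := (Nat.Coprime.mul_left (hcop M hM) ((hcop K hK).pow_left 2)).symm
  have hLv : L ∣ v'.1 := hcopL.dvd_of_dvd_mul_right (hLB.trans hd)
  have hωv : ω ^ v'.1 = 1 := by
    obtain ⟨k, hk⟩ := hLv
    rw [hk, pow_mul, hω, one_pow]
  rw [hgv]
  have e2 : T (Φ.D v') = Φ.D v' := by
    have := Frame.T_D hME hT ho v'.2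
    rw [hωv, mul_one] at this
    exact this
  rw [e2, ← hgv]
  exact trl_apply_inv g _

theorem HEX_core (hME : ME_stmt) (hDI : DI_stmt) (hNB : NB_stmt) (hNF : NF_stmt) (hTY : TY_stmt)
    (hTYM : TYM_stmt) (Φ : Frame) (N1 l a c : ℕ) (hN1e : N1 = l ^ a * c) (hB : Odd (l * N1)) (hl : l.Prime) (hl2 : l ≠ 2)
    (hc : ¬ l ∣ c) : ∃ h : Φ.A ≃ₐ[kk] Φ.A, (∀ (M K : ℕ) (η : kkˣ), M.Coprime l → K.Coprime l → M * K ^ 2 ∣ l * N1 →
      η ^ K = 1 → h (Φ.D (l * N1 * M, η)) = Φ.D (l * N1 * M, η)) ∧ h (Φ.D (l * (l * N1), 1)) = Φ.D (N1, 1) := by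
  have hN1 : Odd N1 := (Nat.odd_mul.mp hB).2
  have hLB : l ^ (a + 1) ∣ l * N1 := ⟨c, by rw [hN1e, pow_succ]; ring⟩
  have hLo : Odd (l ^ (a + 1)) := Odd.of_dvd_nat hB hLB
  have hcop : ∀ n : ℕ, n.Coprime l → n.Coprime (l ^ (a + 1)) := fun n hn => hn.pow_right _
  obtain ⟨γ, hγ, hγ2⟩ := hNF Φ (l * N1) l hB hl hl2
  have hγi : γ⁻¹ (Φ.D (l * N1, 1)) = Φ.D (l * N1, 1) := trl_inv_fix hγ
  obtain ⟨ω, hω⟩ := exists_primitive _ hLo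
  obtain ⟨T, hT⟩ := Φ.exists_T ω
  have hbfix := HEX_fix hME hTY hTYM Φ (l * N1) (l ^ (a + 1)) l hB hLB hcop hγ hT hω.pow_eq_one
  have hb0 : (γ * T * γ⁻¹) (Φ.D (l * N1, 1)) = Φ.D (l * N1, 1) := by
    have h1 := hbfix 1 1 1 (Nat.coprime_one_left l) (Nat.coprime_one_left l) (by
      rw [one_pow, one_mul]
      exact one_dvd _) (one_pow 1)
    rw [mul_one] at h1
    exact h1
  have hbm : (γ * T * γ⁻¹) (Φ.D (l * (l * N1), 1)) ≠ Φ.D (l * (l * N1), 1) := by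
    change γ (T (γ⁻¹ (Φ.D (l * (l * N1), 1)))) ≠ _
    have hmv : γ⁻¹ (Φ.D (l * (l * N1), 1)) ≠ Φ.D (l * (l * N1), 1) := by
      intro h3
      apply hγ2
      conv_lhs => rw [← h3]
      exact trl_apply_inv γ _
    obtain ⟨η, hη, hu⟩ := trl_move hNB hl hl2 hB hγi hmv
    rw [hu, Frame.T_D hME hT hN1 η]
    intro h4
    have h5 : Φ.D (N1, η * ω ^ N1) = Φ.D (N1, η) := by
      rw [← hu, ← h4]
      exact (trl_inv_apply γ _).symm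
    have h6 := hDI Φ _ _ hN1 hN1 h5
    have h7 : η * ω ^ N1 = η := congrArg Prod.snd h6
    have h8 : ω ^ N1 = 1 := mul_eq_left.mp h7
    rw [hω.pow_eq_one_iff_dvd, hN1e, pow_succ] at h8
    exact hc (Nat.dvd_of_mul_dvd_mul_left (pow_pos hl.pos a) h8)
  obtain ⟨η₁, hη₁, hu1⟩ := trl_move hNB hl hl2 hB hb0 hbm
  obtain ⟨θ, hθ⟩ := exists_unit_root (l ^ a) (pow_ne_zero a hl.ne_zero) η₁⁻¹
  have hcl : Nat.Coprime c l := (Nat.coprime_comm).1 ((Nat.Prime.coprime_iff_not_dvd hl).2 hc)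
  obtain ⟨x, -, hx⟩ := Nat.exists_mul_mod_eq_one_of_coprime hcl hl.one_lt
  have hcx : c * x = l * (c * x / l) + 1 := by
    have := Nat.div_add_mod (c * x) l
    rw [hx] at this
    exact this.symm
  have hθL : (θ ^ x) ^ (l ^ (a + 1)) = 1 := by
    have e : (θ ^ x) ^ (l ^ (a + 1)) = ((θ ^ l ^ a) ^ l) ^ x := by
      rw [← pow_mul, ← pow_mul, ← pow_mul]
      congr 1
      ring
    rw [e, hθ, inv_pow, hη₁, inv_one, one_pow]
  have hθN : (θ ^ x) ^ N1 = η₁⁻¹ := by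
    have e : (θ ^ x) ^ N1 = (θ ^ l ^ a) ^ (c * x) := by
      rw [← pow_mul, ← pow_mul, hN1e]
      congr 1
      ring
    rw [e, hθ, hcx, pow_succ, pow_mul, inv_pow, hη₁, inv_one, one_pow, one_mul]
  obtain ⟨T', hT'⟩ := Φ.exists_T (θ ^ x)
  refine ⟨T' * (γ * T * γ⁻¹), ?_, ?_⟩
  · intro M K η hM hK hMK hη
    have h1 := hbfix M K η hM hK hMK hη
    change T' ((γ * T * γ⁻¹) (Φ.D (l * N1 * M, η))) = _
    have hMo : Odd M := (Nat.odd_mul.mp (Odd.of_dvd_nat hB hMK)).1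
    have h2 : (θ ^ x) ^ (l * N1 * M) = 1 := by
      obtain ⟨k, hk⟩ := hLB
      rw [hk, mul_assoc, pow_mul, hθL, one_pow]
    rw [h1, Frame.T_D hME hT' (hB.mul hMo) η, h2, mul_one]
  · change T' ((γ * T * γ⁻¹) (Φ.D (l * (l * N1), 1))) = _
    rw [hu1, Frame.T_D hME hT' hN1 η₁, hθN, mul_inv_cancel]

theorem HEX (hME : ME_stmt) (hDI : DI_stmt) (hNB : NB_stmt) (hNF : NF_stmt) (hTY : TY_stmt)
    (hTYM : TYM_stmt) : HEX_stmt := by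
  intro Φ B l hB hl hl2 hlB
  obtain ⟨N1, rfl⟩ := hlB
  have hN1 : Odd N1 := (Nat.odd_mul.mp hB).2
  obtain ⟨a, c, hc, he⟩ := Nat.exists_eq_pow_mul_and_not_dvd (n := N1) hN1.pos.ne' l hl.ne_one
  obtain ⟨h, h1, h2⟩ := HEX_core hME hDI hNB hNF hTY hTYM Φ N1 l a c he hB hl hl2 hc
  refine ⟨h, h1, ?_⟩
  rw [h2, Nat.mul_div_cancel_left _ hl.pos]

end Pool.Agent.QP
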